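import Mathlib
import Pool.Agent.helper85.PG.Spec5
import Pool.Agent.helper85.PG.Basic

/-!
# One system, arbitrary `B`, below one third (THC)
-/

set_option autoImplicit false

namespace Pool.Agent.helper85.PG

open Module Pointwise

theorem THC_large (C δ : ℝ) (hC : 1 ≤ C) (hδ : 0 < δ) :
    ∃ p₀ : ℕ, ∀ p : ℕ, p₀ ≤ p → C ≤ (p : ℝ) ^ δ := by
  refine ⟨⌈C ^ (1 / δ)⌉₊, fun p hp => ?_⟩
  have h1 : C ^ (1 / δ) ≤ p := Nat.ceil_le.mp hp
  have h0 : 0 ≤ C := by linarith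
  calc C = (C ^ (1 / δ)) ^ δ := by
        rw [← Real.rpow_mul h0, one_div_mul_cancel hδ.ne', Real.rpow_one]
    _ ≤ (p : ℝ) ^ δ := Real.rpow_le_rpow (Real.rpow_nonneg h0 _) h1 hδ.le

theorem THC_unit (z : ℂ) : ∃ α : ℂ, ‖α‖ ≤ 1 ∧ α * z = (‖z‖ : ℂ) := by
  by_cases hz : z = 0
  · refine ⟨0, by rw [norm_zero]; exact zero_le_one, ?_⟩
    rw [hz, norm_zero, mul_zero, Complex.ofReal_zero]
  · have hn : ‖z‖ ≠ 0 := norm_ne_zero_iff.mpr hz
    refine ⟨(‖z‖ : ℂ) / z, ?_, ?_⟩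
    · rw [norm_div, Complex.norm_real, norm_norm, div_self hn]
    · rw [div_mul_cancel₀ _ hz]

theorem THC_dual {p : ℕ} [Fact p.Prime] (U S T : Finset (ZMod p)) (hU : U ⊆ S)
    (f : ZMod p → ZMod p → ℂ) (W : ℝ)
    (h : ∀ α : ZMod p → ℂ, (∀ a, ‖α a‖ ≤ 1) → ‖∑ a ∈ S, ∑ b ∈ T, α a * f a b‖ ≤ W) :
    ∑ a ∈ U, ‖∑ b ∈ T, f a b‖ ≤ W := by
  classical
  choose α hα using fun a : ZMod p => THC_unit (∑ b ∈ T, f a b)
  have h1 := h (fun a => if a ∈ U then α a else 0) (fun a => by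
    by_cases ha : a ∈ U
    · simp only [if_pos ha]; exact (hα a).1
    · simp only [if_neg ha, norm_zero]; exact zero_le_one)
  have h2 : ∑ a ∈ S, ∑ b ∈ T, (if a ∈ U then α a else 0) * f a b =
      ((∑ a ∈ U, ‖∑ b ∈ T, f a b‖ : ℝ) : ℂ) := by
    rw [Complex.ofReal_sum, ← Finset.sum_subset hU (fun a _ ha => ?_)]
    · refine Finset.sum_congr rfl fun a ha => ?_
      rw [← Finset.mul_sum, if_pos ha]
      exact (hα a).2
    · rw [← Finset.mul_sum, if_neg ha, zero_mul]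
  rw [h2, Complex.norm_real, Real.norm_of_nonneg (Finset.sum_nonneg fun _ _ => norm_nonneg _)] at h1
  exact h1

/-- splitting a sum over `B₂` according to the chosen centre -/
theorem THC_split {p : ℕ} [Fact p.Prime] (B₂ X V : Finset (ZMod p)) (g : ZMod p → ZMod p)
    (hg : ∀ b ∈ B₂, g b ∈ X) (hgV : ∀ b ∈ B₂, b - g b ∈ V) (F : ZMod p → ℂ) :
    ∑ b ∈ B₂, F b =
      ∑ x ∈ X, ∑ b ∈ V, if x + b ∈ B₂ ∧ g (x + b) = x then F (x + b) else 0 := by
  classical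
  rw [← Finset.sum_fiberwise_of_maps_to hg]
  refine Finset.sum_congr rfl fun x _ => ?_
  rw [← Finset.sum_filter]
  refine Finset.sum_nbij' (fun b => b - x) (fun b => x + b) ?_ ?_ ?_ ?_ ?_
  · intro b hb
    rw [Finset.mem_filter] at hb
    rw [Finset.mem_filter]
    have e : x + (b - x) = b := by ring
    rw [e]
    refine ⟨?_, hb.1, hb.2⟩
    have := hgV b hb.1
    rw [hb.2] at this
    exact this
  · intro b hb
    rw [Finset.mem_filter] at hb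
    rw [Finset.mem_filter]
    exact hb.2
  · intro b _
    ring
  · intro b _
    ring
  · intro b _
    have e : x + (b - x) = b := by ring
    rw [e]

/-- the dense part -/
theorem THC_dense {p : ℕ} [Fact p.Prime] (hCVR : CVR_stmt) (d : ℕ) (P : ℝ → Finset (ZMod p))
    (hP : IsSys p d P) (B B₂ : Finset (ZMod p)) (hB : B₂ ⊆ B) (q W : ℝ) (hq : 0 < q) (hW : 0 ≤ W)
    (hd : ∀ b ∈ B₂, q ≤ ((B.filter fun b' => b' - b ∈ P 1).card : ℝ))
    (χ : MulChar (ZMod p) ℂ) (s : ZMod p) (β : ZMod p → ℂ) (hβ : ∀ b, ‖β b‖ ≤ 1)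
    (h : ∀ (s : ZMod p) (α β : ZMod p → ℂ), (∀ a, ‖α a‖ ≤ 1) → (∀ b, ‖β b‖ ≤ 1) →
      ‖∑ a ∈ P 2, ∑ b ∈ P 2, α a * β b * χ (a + b + s)‖ ≤ W) :
    q * ∑ a ∈ P 1, ‖∑ b ∈ B₂, β b * χ (a + b + s)‖ ≤ W * (B.card : ℝ) := by
  classical
  obtain ⟨X, hXB, hXd, hXc, _⟩ := hCVR p B₂ (P 1) ⟨0, hP.zero_mem zero_le_one⟩
  -- size of `X`
  have hXcard : (X.card : ℝ) * q ≤ (B.card : ℝ) := by
    have h1 : (X.card : ℝ) * q ≤ ∑ x ∈ X, ((B.filter fun b' => b' - x ∈ P 1).card : ℝ) := by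
      rw [← nsmul_eq_mul]
      exact Finset.card_nsmul_le_sum X _ q fun x hx => hd x (hXB hx)
    have h2 : ∑ x ∈ X, (B.filter fun b' => b' - x ∈ P 1).card ≤ B.card := by
      rw [← Finset.card_biUnion]
      · refine Finset.card_le_card ?_
        intro b hb
        rw [Finset.mem_biUnion] at hb
        obtain ⟨x, _, hx⟩ := hb
        exact (Finset.mem_filter.1 hx).1
      · intro x hx x' hx' hne
        refine Finset.disjoint_left.2 ?_
        intro b hb hb'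
        have h3 := (Finset.mem_filter.1 hb).2
        have h4 := (Finset.mem_filter.1 hb').2
        exact hne (hXd x hx x' hx' (b - x) h3 (b - x') h4 (by ring))
    refine h1.trans ?_
    exact_mod_cast h2
  -- the choice of the centre
  have hch : ∀ b : ZMod p, ∃ x : ZMod p, b ∈ B₂ → x ∈ X ∧ b - x ∈ P 2 := by
    intro b
    by_cases hb : b ∈ B₂
    · obtain ⟨x, hx, v, hv, v', hv', hvv⟩ := hXc b hb
      refine ⟨x, fun _ => ⟨hx, ?_⟩⟩
      have e : b - x = v' - v := by linear_combination hvv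
      have h2 : (1 : ℝ) + 1 = 2 := by norm_num
      rw [e, ← h2]
      exact hP.sub_mem hv' hv
    · exact ⟨0, fun h => absurd h hb⟩
  choose g hg using hch
  have hsplit : ∀ a : ZMod p, ∑ b ∈ B₂, β b * χ (a + b + s) =
      ∑ x ∈ X, ∑ b ∈ P 2, (if x + b ∈ B₂ ∧ g (x + b) = x then β (x + b) else 0) *
        χ (a + b + (s + x)) := by
    intro a
    rw [THC_split B₂ X (P 2) g (fun b hb => (hg b hb).1) (fun b hb => (hg b hb).2)]
    refine Finset.sum_congr rfl fun x _ => Finset.sum_congr rfl fun b _ => ?_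
    have e : a + (x + b) + s = a + b + (s + x) := by ring
    rw [e]
    split_ifs
    · rfl
    · rw [zero_mul]
  have hone : ∀ x ∈ X, ∑ a ∈ P 1,
      ‖∑ b ∈ P 2, (if x + b ∈ B₂ ∧ g (x + b) = x then β (x + b) else 0) *
        χ (a + b + (s + x))‖ ≤ W := by
    intro x _
    refine THC_dual (P 1) (P 2) (P 2) (hP.mono (by norm_num)) _ W fun α hα => ?_
    have h5 := h (s + x) α (fun b => if x + b ∈ B₂ ∧ g (x + b) = x then β (x + b) else 0) hα
      (fun b => by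
        split_ifs
        · exact hβ _
        · rw [norm_zero]; exact zero_le_one)
    refine le_trans (le_of_eq ?_) h5
    refine congrArg _ (Finset.sum_congr rfl fun a _ => Finset.sum_congr rfl fun b _ => ?_)
    rw [mul_assoc]
  have htot : ∑ a ∈ P 1, ‖∑ b ∈ B₂, β b * χ (a + b + s)‖ ≤ (X.card : ℝ) * W := by
    calc ∑ a ∈ P 1, ‖∑ b ∈ B₂, β b * χ (a + b + s)‖
        ≤ ∑ a ∈ P 1, ∑ x ∈ X,
          ‖∑ b ∈ P 2, (if x + b ∈ B₂ ∧ g (x + b) = x then β (x + b) else 0) *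
            χ (a + b + (s + x))‖ := by
          refine Finset.sum_le_sum fun a _ => ?_
          rw [hsplit a]
          exact norm_sum_le _ _
      _ = ∑ x ∈ X, ∑ a ∈ P 1,
          ‖∑ b ∈ P 2, (if x + b ∈ B₂ ∧ g (x + b) = x then β (x + b) else 0) *
            χ (a + b + (s + x))‖ := Finset.sum_comm
      _ ≤ ∑ x ∈ X, W := Finset.sum_le_sum hone
      _ = (X.card : ℝ) * W := by rw [Finset.sum_const, nsmul_eq_mul]
  calc q * ∑ a ∈ P 1, ‖∑ b ∈ B₂, β b * χ (a + b + s)‖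
      ≤ q * ((X.card : ℝ) * W) := mul_le_mul_of_nonneg_left htot hq.le
    _ = ((X.card : ℝ) * q) * W := by ring
    _ ≤ (B.card : ℝ) * W := mul_le_mul_of_nonneg_right hXcard hW
    _ = W * (B.card : ℝ) := mul_comm _ _

theorem THC_triv {p : ℕ} [Fact p.Prime] (A B : Finset (ZMod p)) (χ : MulChar (ZMod p) ℂ)
    (s : ZMod p) (β : ZMod p → ℂ) (hβ : ∀ b, ‖β b‖ ≤ 1) :
    ∑ a ∈ A, ‖∑ b ∈ B, β b * χ (a + b + s)‖ ≤ (A.card : ℝ) * (B.card : ℝ) := by
  have h1 : ∀ a ∈ A, ‖∑ b ∈ B, β b * χ (a + b + s)‖ ≤ (B.card : ℝ) := by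
    intro a _
    refine (norm_sum_le _ _).trans ?_
    calc ∑ b ∈ B, ‖β b * χ (a + b + s)‖ ≤ ∑ b ∈ B, (1 : ℝ) := by
          refine Finset.sum_le_sum fun b _ => ?_
          rw [norm_mul]
          exact mul_le_one₀ (hβ b) (norm_nonneg _) (DirichletCharacter.norm_le_one χ _)
      _ = (B.card : ℝ) := by rw [Finset.sum_const, nsmul_eq_mul, mul_one]
  calc ∑ a ∈ A, ‖∑ b ∈ B, β b * χ (a + b + s)‖ ≤ ∑ a ∈ A, (B.card : ℝ) := Finset.sum_le_sum h1
    _ = (A.card : ℝ) * (B.card : ℝ) := by rw [Finset.sum_const, nsmul_eq_mul]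

theorem THC (hPKC : PKC_stmt) (hCVR : CVR_stmt) (hTHB : THB_stmt) (hSPS : SPS_stmt) :
    THC_stmt := by
  intro d ε hε
  obtain ⟨δ₁, p₁, hδ₁, hB1⟩ := hTHB d ε hε
  obtain ⟨c₂, δ₂, p₂, hc₂, hδ₂, hS⟩ := hSPS d (1 / 4) (δ₁ / 2) (by norm_num) (by linarith)
  set m : ℝ := min δ₂ (min (c₂ / 2) (δ₁ / 2)) with hm
  have hm0 : 0 < m := lt_min hδ₂ (lt_min (by linarith) (by linarith))
  have hm1 : m ≤ δ₂ := min_le_left _ _
  have hm2 : m ≤ c₂ / 2 := (min_le_right _ _).trans (min_le_left _ _)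
  have hm3 : m ≤ δ₁ / 2 := (min_le_right _ _).trans (min_le_right _ _)
  obtain ⟨p₃, hp₃⟩ := THC_large (1 + 25 ^ d) (m / 2) (by
    have : (0 : ℝ) < 25 ^ d := by positivity
    linarith) (by linarith)
  refine ⟨c₂ / 2, m / 2, max p₁ (max p₂ p₃), by linarith, by linarith, ?_⟩
  intro p _ hp P hP hN hN3 B hNB hN2B χ hχ s β hβ
  classical
  have hpp₁ : p₁ ≤ p := (le_max_left _ _).trans hp
  have hpp₂ : p₂ ≤ p := ((le_max_left _ _).trans (le_max_right _ _)).trans hp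
  have hpp₃ : p₃ ≤ p := ((le_max_right _ _).trans (le_max_right _ _)).trans hp
  have hlarge := hp₃ p hpp₃
  have hp1 : (1 : ℝ) < p := by exact_mod_cast (Fact.out : p.Prime).one_lt
  have hp0 : (0 : ℝ) < p := by linarith
  set N : ℝ := ((P 1).card : ℝ) with hNdef
  have hN0 : 0 < N := by
    rw [hNdef]; exact_mod_cast hP.card_pos zero_le_one
  -- the sparse and the dense part
  set B₁ : Finset (ZMod p) := B.filter fun b =>
    ((B.filter fun b' => b' - b ∈ P 1).card : ℝ) < (p : ℝ) ^ (-(δ₁ / 2)) * N with hB₁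
  set B₂ : Finset (ZMod p) := B.filter fun b =>
    ¬ ((B.filter fun b' => b' - b ∈ P 1).card : ℝ) < (p : ℝ) ^ (-(δ₁ / 2)) * N with hB₂
  have hB₁B : (B₁.card : ℝ) ≤ (B.card : ℝ) := by
    exact_mod_cast Finset.card_le_card (Finset.filter_subset _ _)
  have hq0 : 0 < (p : ℝ) ^ (-(δ₁ / 2)) * N := mul_pos (Real.rpow_pos_of_pos hp0 _) hN0
  -- the split
  have hsum : ∑ a ∈ P 1, ‖∑ b ∈ B, β b * χ (a + b + s)‖ ≤
      ∑ a ∈ P 1, ‖∑ b ∈ B₁, β b * χ (a + b + s)‖ +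
        ∑ a ∈ P 1, ‖∑ b ∈ B₂, β b * χ (a + b + s)‖ := by
    rw [← Finset.sum_add_distrib]
    refine Finset.sum_le_sum fun a _ => ?_
    rw [← Finset.sum_filter_add_sum_filter_not B (fun b =>
      ((B.filter fun b' => b' - b ∈ P 1).card : ℝ) < (p : ℝ) ^ (-(δ₁ / 2)) * N)]
    exact norm_add_le _ _
  -- the sparse part
  have hNB0 : 0 ≤ N * (B.card : ℝ) := mul_nonneg hN0.le (Nat.cast_nonneg _)
  have hsparse : ∑ a ∈ P 1, ‖∑ b ∈ B₁, β b * χ (a + b + s)‖ ≤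
      (p : ℝ) ^ (-m) * (N * (B.card : ℝ)) := by
    by_cases hc : (p : ℝ) ^ (-(c₂ / 2)) * (B.card : ℝ) ≤ (B₁.card : ℝ)
    · have h1 : (p : ℝ) ^ (1 / 4 : ℝ) ≤ N :=
        (Real.rpow_le_rpow_of_exponent_le hp1.le (by linarith)).trans hN
      have h2 : N ≤ (p : ℝ) ^ c₂ * (B₁.card : ℝ) := by
        calc N ≤ (p : ℝ) ^ (c₂ / 2) * (B.card : ℝ) := hNB
          _ = (p : ℝ) ^ c₂ * ((p : ℝ) ^ (-(c₂ / 2)) * (B.card : ℝ)) := by
            rw [← mul_assoc, ← Real.rpow_add hp0]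
            have e : c₂ + -(c₂ / 2) = c₂ / 2 := by ring
            rw [e]
          _ ≤ (p : ℝ) ^ c₂ * (B₁.card : ℝ) :=
            mul_le_mul_of_nonneg_left hc (Real.rpow_nonneg hp0.le _)
      have h3 : (p : ℝ) ^ (1 - c₂) ≤ N ^ 2 * (B₁.card : ℝ) := by
        calc (p : ℝ) ^ (1 - c₂) = (p : ℝ) ^ (-(c₂ / 2)) * (p : ℝ) ^ (1 - c₂ / 2) := by
              rw [← Real.rpow_add hp0]
              have e : -(c₂ / 2) + (1 - c₂ / 2) = 1 - c₂ := by ring
              rw [e]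
          _ ≤ (p : ℝ) ^ (-(c₂ / 2)) * (N ^ 2 * (B.card : ℝ)) :=
            mul_le_mul_of_nonneg_left hN2B (Real.rpow_nonneg hp0.le _)
          _ = N ^ 2 * ((p : ℝ) ^ (-(c₂ / 2)) * (B.card : ℝ)) := by ring
          _ ≤ N ^ 2 * (B₁.card : ℝ) := mul_le_mul_of_nonneg_left hc (sq_nonneg _)
      have h4 : ∀ t : ZMod p, ((B₁.filter fun b => b - t ∈ P (1 / 2)).card : ℝ) ≤
          (p : ℝ) ^ (-(δ₁ / 2)) * N := by
        intro t
        rcases (B₁.filter fun b => b - t ∈ P (1 / 2)).eq_empty_or_nonempty with he | ⟨b, hb⟩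
        · rw [he, Finset.card_empty, Nat.cast_zero]
          exact hq0.le
        · rw [Finset.mem_filter] at hb
          have hb1 := (Finset.mem_filter.1 hb.1).2
          refine le_trans ?_ hb1.le
          refine Nat.cast_le.2 (Finset.card_le_card ?_)
          intro b' hb'
          rw [Finset.mem_filter] at hb'
          rw [Finset.mem_filter]
          refine ⟨(Finset.mem_filter.1 hb'.1).1, ?_⟩
          have e : b' - b = (b' - t) - (b - t) := by ring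
          have e1 : (1 / 2 : ℝ) + 1 / 2 = 1 := by norm_num
          rw [e]
          have h6 := hP.sub_mem hb'.2 hb.2
          rw [e1] at h6
          exact h6
      have h5 := hS p hpp₂ P hP h1 hN3 B₁ h2 h3 h4 χ hχ s β hβ
      refine h5.trans ?_
      have h6 : (p : ℝ) ^ (-δ₂) ≤ (p : ℝ) ^ (-m) :=
        Real.rpow_le_rpow_of_exponent_le hp1.le (by linarith)
      exact mul_le_mul h6 (mul_le_mul_of_nonneg_left hB₁B hN0.le)
        (mul_nonneg hN0.le (Nat.cast_nonneg _)) (Real.rpow_nonneg hp0.le _)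
    · rw [not_le] at hc
      refine (THC_triv (P 1) B₁ χ s β hβ).trans ?_
      have h6 : (p : ℝ) ^ (-(c₂ / 2)) ≤ (p : ℝ) ^ (-m) :=
        Real.rpow_le_rpow_of_exponent_le hp1.le (by linarith)
      calc N * (B₁.card : ℝ) ≤ N * ((p : ℝ) ^ (-(c₂ / 2)) * (B.card : ℝ)) :=
            mul_le_mul_of_nonneg_left hc.le hN0.le
        _ = (p : ℝ) ^ (-(c₂ / 2)) * (N * (B.card : ℝ)) := by ring
        _ ≤ (p : ℝ) ^ (-m) * (N * (B.card : ℝ)) := mul_le_mul_of_nonneg_right h6 hNB0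
  -- the dense part
  have hdense : ∑ a ∈ P 1, ‖∑ b ∈ B₂, β b * χ (a + b + s)‖ ≤
      25 ^ d * (p : ℝ) ^ (-m) * (N * (B.card : ℝ)) := by
    have hP2 : ((P 2).card : ℝ) ≤ 5 ^ d * N := by
      have h1 := (hPKC.2.2 p d P hP 2 1 (by norm_num) (by norm_num)).1
      have e : (1 + 2 * 2 / 1 : ℝ) = 5 := by norm_num
      rw [e] at h1
      exact h1
    have hNP2 : N ≤ ((P 2).card : ℝ) := by
      rw [hNdef]
      exact_mod_cast Finset.card_le_card (hP.mono (by norm_num))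
    have hsc := hP.scale (c := 2) (by norm_num)
    have e2 : (2 : ℝ) * 1 = 2 := by norm_num
    have hpe : (p : ℝ) ^ ε ≤ ((P 2).card : ℝ) :=
      (Real.rpow_le_rpow_of_exponent_le hp1.le (by linarith)).trans (hN.trans hNP2)
    have hpe2 : (p : ℝ) ^ (1 / 2 + ε) ≤ ((P 2).card : ℝ) * ((P 2).card : ℝ) := by
      calc (p : ℝ) ^ (1 / 2 + ε) ≤ (p : ℝ) ^ ((1 / 4 + ε) + (1 / 4 + ε)) :=
            Real.rpow_le_rpow_of_exponent_le hp1.le (by linarith)
        _ = (p : ℝ) ^ (1 / 4 + ε) * (p : ℝ) ^ (1 / 4 + ε) := Real.rpow_add hp0 _ _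
        _ ≤ ((P 2).card : ℝ) * ((P 2).card : ℝ) :=
          mul_le_mul (hN.trans hNP2) (hN.trans hNP2) (Real.rpow_nonneg hp0.le _)
            (Nat.cast_nonneg _)
    have hW := hB1 p hpp₁ (fun R => P (2 * R)) (fun R => P (2 * R)) hsc hsc
    simp only [e2] at hW
    have hW1 := hW hpe hpe hpe2 χ hχ
    have hd := THC_dense hCVR d P hP B B₂ (Finset.filter_subset _ _) ((p : ℝ) ^ (-(δ₁ / 2)) * N)
      ((p : ℝ) ^ (-δ₁) * (((P 2).card : ℝ) * ((P 2).card : ℝ))) hq0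
      (mul_nonneg (Real.rpow_nonneg hp0.le _) (mul_nonneg (Nat.cast_nonneg _) (Nat.cast_nonneg _)))
      (fun b hb => not_lt.1 (Finset.mem_filter.1 hb).2) χ s β hβ hW1
    set S2 : ℝ := ∑ a ∈ P 1, ‖∑ b ∈ B₂, β b * χ (a + b + s)‖ with hS2
    have h7 : (p : ℝ) ^ (-δ₁) * (((P 2).card : ℝ) * ((P 2).card : ℝ)) * (B.card : ℝ) ≤
        (p : ℝ) ^ (-(δ₁ / 2)) * N * (25 ^ d * (p : ℝ) ^ (-m) * (N * (B.card : ℝ))) := by
      have h8 : ((P 2).card : ℝ) * ((P 2).card : ℝ) ≤ 25 ^ d * N ^ 2 := by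
        calc ((P 2).card : ℝ) * ((P 2).card : ℝ) ≤ (5 ^ d * N) * (5 ^ d * N) :=
              mul_le_mul hP2 hP2 (Nat.cast_nonneg _) (by positivity)
          _ = 25 ^ d * N ^ 2 := by
            have e : (25 : ℝ) = 5 * 5 := by norm_num
            rw [e, mul_pow]
            ring
      have h9 : (p : ℝ) ^ (-δ₁) ≤ (p : ℝ) ^ (-(δ₁ / 2)) * (p : ℝ) ^ (-m) := by
        rw [← Real.rpow_add hp0]
        exact Real.rpow_le_rpow_of_exponent_le hp1.le (by linarith)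
      calc (p : ℝ) ^ (-δ₁) * (((P 2).card : ℝ) * ((P 2).card : ℝ)) * (B.card : ℝ)
          ≤ ((p : ℝ) ^ (-(δ₁ / 2)) * (p : ℝ) ^ (-m)) * (25 ^ d * N ^ 2) * (B.card : ℝ) := by
            refine mul_le_mul_of_nonneg_right ?_ (Nat.cast_nonneg _)
            exact mul_le_mul h9 h8 (mul_nonneg (Nat.cast_nonneg _) (Nat.cast_nonneg _))
              (mul_nonneg (Real.rpow_nonneg hp0.le _) (Real.rpow_nonneg hp0.le _))
        _ = (p : ℝ) ^ (-(δ₁ / 2)) * N * (25 ^ d * (p : ℝ) ^ (-m) * (N * (B.card : ℝ))) := by ring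
    exact le_of_mul_le_mul_left (hd.trans h7) hq0
  -- total
  refine hsum.trans ((add_le_add hsparse hdense).trans ?_)
  have h10 : (p : ℝ) ^ (-m) * (1 + 25 ^ d) ≤ (p : ℝ) ^ (-(m / 2)) := by
    calc (p : ℝ) ^ (-m) * (1 + 25 ^ d) ≤ (p : ℝ) ^ (-m) * (p : ℝ) ^ (m / 2) :=
          mul_le_mul_of_nonneg_left hlarge (Real.rpow_nonneg hp0.le _)
      _ = (p : ℝ) ^ (-(m / 2)) := by
        rw [← Real.rpow_add hp0]
        have e : -m + m / 2 = -(m / 2) := by ring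
        rw [e]
  calc (p : ℝ) ^ (-m) * (N * (B.card : ℝ)) + 25 ^ d * (p : ℝ) ^ (-m) * (N * (B.card : ℝ))
      = ((p : ℝ) ^ (-m) * (1 + 25 ^ d)) * (N * (B.card : ℝ)) := by ring
    _ ≤ (p : ℝ) ^ (-(m / 2)) * (N * (B.card : ℝ)) := mul_le_mul_of_nonneg_right h10 hNB0

end Pool.Agent.helper85.PG
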